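import Pool.Agent.H13.Two

namespace Pool.Agent.Results.MP_808179_co.Theta
open Finset Matrix Pool.Agent.H13.Two

abbrev V := Fin 3 × Fin 3 × Fin 2

def G : SimpleGraph V where
  Adj v w := v.1 = w.1 ∧ v.2.1 ≠ w.2.1 ∧ (v.2.1 = 1 ∨ w.2.1 = 1) ∨
    v.1 ≠ w.1 ∧ v.2.1 = w.2.1 ∧ v.2.1 ≠ 1
  symm := ⟨by decide +kernel⟩
  loopless := ⟨by decide⟩

instance : DecidableRel G.Adj := fun v w =>
  inferInstanceAs (Decidable (v.1 = w.1 ∧ v.2.1 ≠ w.2.1 ∧ (v.2.1 = 1 ∨ w.2.1 = 1) ∨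
    v.1 ≠ w.1 ∧ v.2.1 = w.2.1 ∧ v.2.1 ≠ 1))

def f (v w : V) : ℤ :=
  if v.2.1 = 0 then (1 - 2 * v.2.2) * (6 + 2 * w.2.2) else (1 - 2 * v.2.2) * (8 - 14 * w.2.2)

def B : Matrix V V ℤ := fun v w =>
  if v = w then if v.2.1 = 1 then -5 else 5 else if G.Adj v w then
    if w.2.1 = 1 then f v w else if v.2.1 = 1 then f w v else -5 else 0

theorem key {x m u u' w w' c c' : ℝ} (h1 : x * m + u * w + u' * w' = 0) (h2 : c * u + c' * u' = 0)
    (h3 : c * w + c' * w' = 0) (h4 : c ≠ 0) (h5 : u' ≠ 0) (h6 : w' ≠ 0) :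
    x * (m * u' * w') < 0 := by
  have : x * (m * u' * w') * c ^ 2 = -((u' * w') ^ 2 * (c ^ 2 + c' ^ 2)) := by grind
  refine neg_of_mul_neg_right (a := c ^ 2) ?_ (sq_nonneg c)
  rw [mul_comm, this, neg_lt_zero]
  positivity

theorem c1 : ∀ p j i i', j ≠ 1 → ∀ x, (G.Adj (p, j, i) x ∨ (p, j, i) = x) ∧
    (G.Adj x (p, 1, i') ∨ x = (p, 1, i')) → x ∈ ({(p, j, i), (p, 1, i')} : Finset V) := by
  decide +kernel

set_option synthInstance.maxSize 1000 in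
theorem c2 : ∀ p q r, p ≠ q ∧ q ≠ r ∧ p ≠ r → ∀ x, (G.Adj (p, 0, 1) x ∨ (p, 0, 1) = x) ∧
    (G.Adj x (q, 0, 1) ∨ x = (q, 0, 1)) →
    x ∈ ({(p, 0, 1), (q, 0, 1), (r, 0, 0), (r, 0, 1)} : Finset V) := by
  decide +kernel

theorem c3 : ∀ p r, p ≠ r → ∀ x, (G.Adj (r, 1, 0) x ∨ (r, 1, 0) = x) ∧
    (G.Adj x (p, 0, 1) ∨ x = (p, 0, 1)) → x ∈ ({(r, 0, 0), (r, 0, 1)} : Finset V) := by
  decide +kernel

theorem tr0 {M : Matrix V V ℝ} {c : ℝ} (h : InS G M) (h' : M * M = c • 1) : M.trace ≠ 0 := by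
  have z : ∀ v w, ¬G.Adj v w ∧ v ≠ w → M v w = 0 := fun v w e => by
    simpa [e.1] using h.2 v w e.2
  have n : ∀ v w, G.Adj v w → M v w ≠ 0 := fun v w e => (h.2 v w e.ne).2 e
  have e : ∀ v w (S : Finset V), v ≠ w → (∀ x, (G.Adj v x ∨ v = x) ∧ (G.Adj x w ∨ x = w) → x ∈ S) →
      ∑ x ∈ S, M v x * M x w = 0 := fun v w S e hS => by
    rw [sum_subset (subset_univ S) fun x _ hx => mul_eq_zero.2 ((not_and_or.1 (mt (hS x) hx)).imp
      (fun h => z _ _ (not_or.1 h)) fun h => z _ _ (not_or.1 h))]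
    simpa [mul_apply, e] using congrFun₂ h' v w
  have d : ∀ p j i i', j ≠ 1 → M (p, j, i) (p, j, i) = -M (p, 1, i') (p, 1, i') := by
    intro p j i i' hj
    have h1 := e (p, j, i) (p, 1, i') _ (by simp [hj]) (c1 p j i i' hj)
    rw [sum_pair (by simp [hj])] at h1
    refine mul_right_cancel₀ (n (p, j, i) (p, 1, i') (by simp [G, hj])) ?_
    linarith
  have t : ∀ p q r, p ≠ q → q ≠ r → p ≠ r → (M (p, 0, 1) (p, 0, 1) + M (q, 0, 1) (q, 0, 1)) *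
      (M (p, 0, 1) (q, 0, 1) * M (r, 0, 1) (p, 0, 1) * M (r, 0, 1) (q, 0, 1)) < 0 := by
    intro p q r a b c
    have h1 := e (p, 0, 1) (q, 0, 1) _ (by simp [a]) (c2 p q r ⟨a, b, c⟩)
    have h2 := e (r, 1, 0) (p, 0, 1) _ (by simp) (c3 p r c)
    have h3 := e (r, 1, 0) (q, 0, 1) _ (by simp) (c3 q r b)
    rw [sum_pair (by simp)] at h2 h3
    rw [sum_insert (by simp [a, c]), sum_insert (by simp [b]), sum_pair (by simp),
      ← h.1.apply (p, 0, 1) (r, 0, 0), ← h.1.apply (p, 0, 1) (r, 0, 1)] at h1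
    exact key (by linarith) h2 h3 (n _ _ (by simp [G])) (n _ _ (by simp [G, c.symm]))
      (n _ _ (by simp [G, b.symm]))
  intro H
  have t0 := t 0 1 2 (by decide) (by decide) (by decide)
  have t1 := t 0 2 1 (by decide) (by decide) (by decide)
  have t2 := t 1 2 0 (by decide) (by decide) (by decide)
  rw [h.1.apply (2, 0, 1) (0, 0, 1), h.1.apply (0, 0, 1) (1, 0, 1), h.1.apply (2, 0, 1) (1, 0, 1)]
    at t1
  rw [h.1.apply (2, 0, 1) (0, 0, 1), h.1.apply (2, 0, 1) (1, 0, 1)] at t2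
  have s : M (0, 0, 1) (0, 0, 1) + M (1, 0, 1) (1, 0, 1) + M (2, 0, 1) (2, 0, 1) = 0 := by
    have a := fun p => And.intro (And.intro (d p 0 0 0 (by decide)) (d p 0 1 0 (by decide)))
      (And.intro (d p 0 1 1 (by decide)) (And.intro (d p 2 0 0 (by decide)) (d p 2 1 0 (by decide))))
    simp only [trace, Matrix.diag, Fintype.sum_prod_type, Fin.sum_univ_three,
      Fin.sum_univ_two] at H
    obtain ⟨⟨_, _⟩, _, _, _⟩ := a 0
    obtain ⟨⟨_, _⟩, _, _, _⟩ := a 1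
    obtain ⟨⟨_, _⟩, _, _, _⟩ := a 2
    linarith
  have := congrArg (· * (M (0, 0, 1) (1, 0, 1) * M (2, 0, 1) (0, 0, 1) * M (2, 0, 1) (1, 0, 1))) s
  linarith

theorem result : ∃ (V : Type) (_ : Fintype V) (_ : DecidableEq V) (G : SimpleGraph V),
    Fintype.card V = 18 ∧ Ach G 8 ∧ ¬Ach G 9 := by
  have a := cast (G := G) (B := B) (c := 225) (by decide +kernel)
  have b : ∑ v, B v v = 30 := by decide +kernel
  refine ⟨V, inferInstance, inferInstance, G, by simp,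
    to_ach a.1 (c := 15) (by norm_num) (by rw [a.2]; norm_num) ?_, fun h => ?_⟩
  · have := congrArg ((↑) : ℤ → ℝ) b
    simp only [Int.cast_sum] at this
    exact this.trans (by norm_num)
  · obtain ⟨M, c, h1, h2, h3⟩ := of_ach h (by simp)
    exact tr0 h1 h2 (h3.2 (by simp))

end Pool.Agent.Results.MP_808179_co.Theta
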